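import Pool.Agent.Y560.TG.Stm

/-!
# Minimal blocks and back-and-forth equivalence of rank `ω` (helper748)
-/

set_option autoImplicit false

namespace Pool.Agent.Y748.TG

open Set
open Pool.Agent.Y560.TG
open Pool.Agent.H899R2.VP (St Adj PIso BF IsoOn idOn inv comp zipSet)
open Pool.Agent.H533R2.VO (RS lift put OS Ic RIso Dich VC BlkV S_FINAL)
open Pool.Agent.H566P (ar R2 v2 a0 a1 lt ac co mk LA LL MB lab sh prec pull S_ACC S_MSG)

variable {R R' : R2} {p : Set (ℕ × ℕ)}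

lemma bk (k : ℕ) (h : BF (lift R) (lift R') univ univ ((k + 1 : ℕ) : Ordinal.{0}) p) (y : ℕ) :
    ∃ x, BF (lift R) (lift R') univ univ ((k : ℕ) : Ordinal.{0}) (insert (x, y) p) := by
  obtain ⟨x, -, hx⟩ := h.back (o' := ((k : ℕ) : Ordinal.{0}))
    (by exact_mod_cast Nat.lt_succ_self k) (mem_univ y)
  exact ⟨x, hx⟩

lemma ft (k : ℕ) (h : BF (lift R) (lift R') univ univ ((k + 1 : ℕ) : Ordinal.{0}) p) (x : ℕ) :
    ∃ y, BF (lift R) (lift R') univ univ ((k : ℕ) : Ordinal.{0}) (insert (x, y) p) := by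
  obtain ⟨y, -, hy⟩ := h.forth (o' := ((k : ℕ) : Ordinal.{0}))
    (by exact_mod_cast Nat.lt_succ_self k) (mem_univ x)
  exact ⟨y, hy⟩

lemma back4 (h : BF (lift R) (lift R') univ univ Ordinal.omega0 ∅) (x y z u : ℕ) :
    ∃ (x₀ y₀ z₀ u₀ : ℕ) (q : Set (ℕ × ℕ)), BF (lift R) (lift R') univ univ ((1 : ℕ) : Ordinal.{0}) q ∧
      (x₀, x) ∈ q ∧ (y₀, y) ∈ q ∧ (z₀, z) ∈ q ∧ (u₀, u) ∈ q := by
  have h5 : BF (lift R) (lift R') univ univ ((4 + 1 : ℕ) : Ordinal.{0}) ∅ :=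
    h.mono (Ordinal.nat_lt_omega0 5).le
  obtain ⟨x₀, h4⟩ := bk 4 h5 x
  obtain ⟨y₀, h3⟩ := bk 3 h4 y
  obtain ⟨z₀, h2⟩ := bk 2 h3 z
  obtain ⟨u₀, h1⟩ := bk 1 h2 u
  refine ⟨x₀, y₀, z₀, u₀, _, h1, ?_, ?_, ?_, ?_⟩ <;> simp

theorem t_MBF : S_MBF := by
  classical
  intro Γ _ g hg R R' hR h
  obtain ⟨t, hla, hmb⟩ := MB.la hR
  have hac := fun n x y => la_ac (R := R) hla n x y
  -- the relational axioms for `R'`
  have irr : ∀ x, ¬ lt R' x x := by
    intro x hx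
    obtain ⟨a, b, c, d, q, hq, ha, -, -, -⟩ := back4 h x x x x
    exact hla.irr a ((piso_lt hq.piso ha ha).2 hx)
  have tr : ∀ x y z, lt R' x y → lt R' y z → lt R' x z := by
    intro x y z h1 h2
    obtain ⟨a, b, c, d, q, hq, ha, hb, hc, -⟩ := back4 h x y z z
    exact (piso_lt hq.piso ha hc).1
      (hla.tr a b c ((piso_lt hq.piso ha hb).2 h1) ((piso_lt hq.piso hb hc).2 h2))
  have tot : ∀ x y, x ≠ y → lt R' x y ∨ lt R' y x := by
    intro x y hxy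
    obtain ⟨a, b, c, d, q, hq, ha, hb, -, -⟩ := back4 h x y x x
    have hab : a ≠ b := fun e => hxy ((piso_eq hq.piso ha hb).1 e)
    rcases hla.tot a b hab with h1 | h1
    · exact Or.inl ((piso_lt hq.piso ha hb).1 h1)
    · exact Or.inr ((piso_lt hq.piso hb ha).1 h1)
  have ex : ∀ n x, ∃ y, ac R' n x y := by
    intro n x
    obtain ⟨a, b, c, d, q, hq, ha, -, -, -⟩ := back4 h x x x x
    obtain ⟨y, hy⟩ := ft 0 hq (t (g n) a)
    exact ⟨y, (piso_ac hy.piso (mem_insert_of_mem _ ha) (mem_insert _ _)).1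
      ((hac n a _).2 rfl)⟩
  have uni : ∀ n x y y', ac R' n x y → ac R' n x y' → y = y' := by
    intro n x y y' h1 h2
    obtain ⟨a, b, c, d, q, hq, ha, hb, hc, -⟩ := back4 h x y y' x
    have e1 := (hac n a b).1 ((piso_ac hq.piso ha hb).2 h1)
    have e2 := (hac n a c).1 ((piso_ac hq.piso ha hc).2 h2)
    exact (piso_eq hq.piso hb hc).1 (e1.symm.trans e2)
  have one : ∀ k x, g k = 1 → ac R' k x x := by
    intro k x hk
    obtain ⟨a, b, c, d, q, hq, ha, -, -, -⟩ := back4 h x x x x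
    refine (piso_ac hq.piso ha ha).1 ((hac k a a).2 ?_)
    rw [hk, hla.one]
  have mul : ∀ k n m x y z, g k = g n * g m → ac R' m x y → ac R' n y z → ac R' k x z := by
    intro k n m x y z hk h1 h2
    obtain ⟨a, b, c, d, q, hq, ha, hb, hc, -⟩ := back4 h x y z z
    have e1 := (hac m a b).1 ((piso_ac hq.piso ha hb).2 h1)
    have e2 := (hac n b c).1 ((piso_ac hq.piso hb hc).2 h2)
    refine (piso_ac hq.piso ha hc).1 ((hac k a c).2 ?_)
    rw [hk, la_mul hla, e1, e2]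
  have cong : ∀ n m x y, g n = g m → ac R' n x y → ac R' m x y := by
    intro n m x y hnm h1
    obtain ⟨a, b, c, d, q, hq, ha, hb, -, -⟩ := back4 h x y x x
    have e1 := (hac n a b).1 ((piso_ac hq.piso ha hb).2 h1)
    refine (piso_ac hq.piso ha hb).1 ((hac m a b).2 ?_)
    rw [← hnm, e1]
  have mono : ∀ n x y x' y', lt R' x y → ac R' n x x' → ac R' n y y' → lt R' x' y' := by
    intro n x y x' y' h1 h2 h3
    obtain ⟨a, b, c, d, q, hq, ha, hb, hc, hd⟩ := back4 h x y x' y'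
    have e1 := (hac n a c).1 ((piso_ac hq.piso ha hc).2 h2)
    have e2 := (hac n b d).1 ((piso_ac hq.piso hb hd).2 h3)
    have e3 := (piso_lt hq.piso ha hb).2 h1
    refine (piso_lt hq.piso hc hd).1 ?_
    rw [← e1, ← e2]
    exact (la_lt hla _ _ _).2 e3
  have up : ∀ x y, ∃ n x', ac R' n x x' ∧ lt R' y x' := by
    intro x y
    obtain ⟨a, b, c, d, q, hq, ha, hb, -, -⟩ := back4 h x y x x
    obtain ⟨γ, hγ⟩ := (hmb a b).1
    obtain ⟨n, rfl⟩ := hg γ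
    obtain ⟨x', hx'⟩ := ft 0 hq (t (g n) a)
    exact ⟨n, x', (piso_ac hx'.piso (mem_insert_of_mem _ ha) (mem_insert _ _)).1
      ((hac n a _).2 rfl),
      (piso_lt hx'.piso (mem_insert_of_mem _ hb) (mem_insert _ _)).1 hγ⟩
  have down : ∀ x y, ∃ n x', ac R' n x x' ∧ lt R' x' y := by
    intro x y
    obtain ⟨a, b, c, d, q, hq, ha, hb, -, -⟩ := back4 h x y x x
    obtain ⟨γ, hγ⟩ := (hmb a b).2
    obtain ⟨n, rfl⟩ := hg γ
    obtain ⟨x', hx'⟩ := ft 0 hq (t (g n) a)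
    exact ⟨n, x', (piso_ac hx'.piso (mem_insert_of_mem _ ha) (mem_insert _ _)).1
      ((hac n a _).2 rfl),
      (piso_lt hx'.piso (mem_insert _ _) (mem_insert_of_mem _ hb)).1 hγ⟩
  -- the action on `R'`
  choose ν hν using hg
  let t' : Γ → ℕ → ℕ := fun γ x => (ex (ν γ) x).choose
  have ht' : ∀ γ x, ac R' (ν γ) x (t' γ x) := fun γ x => (ex (ν γ) x).choose_spec
  have act : ∀ n x y, ac R' n x y ↔ t' (g n) x = y := by
    intro n x y
    constructor
    · intro h1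
      exact uni _ _ _ _ (ht' (g n) x) (cong n (ν (g n)) x y (hν _).symm h1)
    · rintro rfl
      exact cong (ν (g n)) n x _ (hν _) (ht' (g n) x)
  refine ⟨t', ⟨irr, tr, tot, ?_, ?_, ?_, ?_⟩, ?_⟩
  · intro x
    exact uni _ _ _ _ (ht' 1 x) (one _ _ (hν 1))
  · intro γ _ δ _ x
    refine uni _ _ _ _ (ht' (γ * δ) x) (mul _ (ν γ) (ν δ) x (t' δ x) _ ?_ (ht' δ x) (ht' γ _))
    rw [hν, hν, hν]
  · intro γ _ x y h1
    exact mono (ν γ) x y _ _ h1 (ht' γ x) (ht' γ y)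
  · intro n x y
    rw [act]
    exact ⟨fun h1 => ⟨Subgroup.mem_top _, h1⟩, fun h1 => h1.2⟩
  · intro x y
    constructor
    · obtain ⟨n, x', h1, h2⟩ := up x y
      exact ⟨g n, Subgroup.mem_top _, by rw [(act n x x').1 h1]; exact h2⟩
    · obtain ⟨n, x', h1, h2⟩ := down x y
      exact ⟨g n, Subgroup.mem_top _, by rw [(act n x x').1 h1]; exact h2⟩

end Pool.Agent.Y748.TG
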